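import Mathlib

namespace Pool.Agent.Results.MP_26bbbf_al.Leavitt

/-! ### The Leavitt relations -/

section leavitt

variable {K E : Type} [Field K] [Ring E] [Algebra K E]

/-- A family satisfying the relations of the Leavitt algebra `L(1,2)`. -/
structure Fam (K E : Type) [Field K] [Ring E] [Algebra K E] where
  x : Bool → E
  y : Bool → E
  yx : ∀ i j, y i * x j = if i = j then 1 else 0
  xy : x false * y false + x true * y true = 1

variable (Φ : Fam K E)

/-- The monomial `x_{w_1} ⋯ x_{w_n}`. -/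
def X : List Bool → E
  | [] => 1
  | i :: w => Φ.x i * X w

/-- The monomial `y_{w_n} ⋯ y_{w_1}`. -/
def Y : List Bool → E
  | [] => 1
  | i :: w => Y w * Φ.y i

lemma X_append (v w : List Bool) : X Φ (v ++ w) = X Φ v * X Φ w := by
  induction v with
  | nil => simp [X]
  | cons i v ih => simp only [List.cons_append, X, ih, mul_assoc]

lemma Y_append (v w : List Bool) : Y Φ (v ++ w) = Y Φ w * Y Φ v := by
  induction v with
  | nil => simp [Y]
  | cons i v ih => simp only [List.cons_append, Y, ih, mul_assoc]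

lemma Y_cons_X_cons (i j : Bool) (v w : List Bool) :
    Y Φ (i :: v) * X Φ (j :: w) = if i = j then Y Φ v * X Φ w else 0 := by
  simp only [X, Y]
  have : Y Φ v * Φ.y i * (Φ.x j * X Φ w) = Y Φ v * (Φ.y i * Φ.x j) * X Φ w := by
    simp only [mul_assoc]
  rw [this, Φ.yx]
  split_ifs <;> simp

lemma Y_mul_X_self (w : List Bool) : Y Φ w * X Φ w = 1 := by
  induction w with
  | nil => simp [X, Y]
  | cons i w ih => rw [Y_cons_X_cons, if_pos rfl, ih]

lemma Y_mul_X_of_length {v w : List Bool} (h : v.length = w.length) :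
    Y Φ v * X Φ w = if v = w then 1 else 0 := by
  induction v generalizing w with
  | nil =>
    cases w with
    | nil => simp [X, Y]
    | cons j w => simp at h
  | cons i v ih =>
    cases w with
    | nil => simp at h
    | cons j w =>
      rw [Y_cons_X_cons, ih (by simpa using h)]
      by_cases hij : i = j
      · subst hij
        simp
      · simp [hij]

/-- A mismatch at some position kills the product. -/
lemma Y_mul_X_mismatch {v w : List Bool} (n : ℕ) (hv : n < v.length) (hw : n < w.length)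
    (h : v[n] ≠ w[n]) : Y Φ v * X Φ w = 0 := by
  induction v generalizing w n with
  | nil => simp at hv
  | cons i v ih =>
    cases w with
    | nil => simp at hw
    | cons j w =>
      rw [Y_cons_X_cons]
      cases n with
      | zero =>
        rw [if_neg]
        simpa using h
      | succ n =>
        split_ifs
        · exact ih n (by simpa using hv) (by simpa using hw) (by simpa using h)
        · rfl

/-- The aperiodic word `0^D 1`. -/
def dl (D : ℕ) : List Bool := List.replicate D false ++ [true]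

lemma dl_length (D : ℕ) : (dl D).length = D + 1 := by simp [dl]

lemma dl_get_lt (D n : ℕ) (h : n < D) : (dl D)[n]'(by rw [dl_length]; omega) = false := by
  simp [dl, h]

lemma dl_get_eq (D : ℕ) : (dl D)[D]'(by rw [dl_length]; omega) = true := by
  simp [dl]

/-- The separation property. -/
lemma separate (D : ℕ) {α μ : List Bool} (h : α.length ≠ μ.length)
    (h1 : α.length ≤ μ.length + D) (h2 : μ.length ≤ α.length + D) :
    Y Φ (α ++ dl D) * X Φ (μ ++ dl D) = 0 := by
  rcases lt_or_gt_of_ne h with hlt | hlt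
  · -- position `|α| + D`
    have l1 : α.length + D < (α ++ dl D).length := by
      rw [List.length_append, dl_length]; omega
    have l2 : α.length + D < (μ ++ dl D).length := by
      rw [List.length_append, dl_length]; omega
    apply Y_mul_X_mismatch Φ (α.length + D) l1 l2
    rw [List.getElem_append_right (by omega), List.getElem_append_right (by omega)]
    have e1 : (dl D)[α.length + D - α.length]'(by rw [dl_length]; omega) = true := by
      simp only [add_tsub_cancel_left]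
      exact dl_get_eq D
    have e2 : (dl D)[α.length + D - μ.length]'(by rw [dl_length]; omega) = false :=
      dl_get_lt D _ (by omega)
    rw [e1, e2]
    decide
  · have l1 : μ.length + D < (α ++ dl D).length := by
      rw [List.length_append, dl_length]; omega
    have l2 : μ.length + D < (μ ++ dl D).length := by
      rw [List.length_append, dl_length]; omega
    apply Y_mul_X_mismatch Φ (μ.length + D) l1 l2
    rw [List.getElem_append_right (by omega), List.getElem_append_right (by omega)]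
    have e1 : (dl D)[μ.length + D - μ.length]'(by rw [dl_length]; omega) = true := by
      simp only [add_tsub_cancel_left]
      exact dl_get_eq D
    have e2 : (dl D)[μ.length + D - α.length]'(by rw [dl_length]; omega) = false :=
      dl_get_lt D _ (by omega)
    rw [e1, e2]
    decide

/-- The span of the monomials `X_α Y_β` with `|α| = a`, `|β| = b`. -/
def Sp (a b : ℕ) : Submodule K E :=
  Submodule.span K {t | ∃ α β : List Bool, α.length = a ∧ β.length = b ∧ t = X Φ α * Y Φ β}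

lemma mono_mem {a b : ℕ} {α β : List Bool} (hα : α.length = a) (hβ : β.length = b) :
    X Φ α * Y Φ β ∈ Sp Φ a b := Submodule.subset_span ⟨α, β, hα, hβ, rfl⟩

lemma Sp_succ (a b : ℕ) : Sp Φ a b ≤ Sp Φ (a + 1) (b + 1) := by
  refine Submodule.span_le.mpr ?_
  rintro _ ⟨α, β, hα, hβ, rfl⟩
  have : X Φ α * Y Φ β = X Φ (α ++ [false]) * Y Φ (β ++ [false]) +
      X Φ (α ++ [true]) * Y Φ (β ++ [true]) := by
    rw [X_append, X_append, Y_append, Y_append]
    simp only [X, Y, mul_one, one_mul]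
    calc X Φ α * Y Φ β = X Φ α * (Φ.x false * Φ.y false + Φ.x true * Φ.y true) * Y Φ β := by
          rw [Φ.xy, mul_one]
      _ = _ := by noncomm_ring
  rw [this]
  exact add_mem (mono_mem Φ (by simp [hα]) (by simp [hβ]))
    (mono_mem Φ (by simp [hα]) (by simp [hβ]))

lemma Sp_add (a b k : ℕ) : Sp Φ a b ≤ Sp Φ (a + k) (b + k) := by
  induction k with
  | zero => exact le_rfl
  | succ k ih => exact ih.trans (Sp_succ Φ _ _)

lemma Sp_mul {a b c : ℕ} {s t : E} (hs : s ∈ Sp Φ a b) (ht : t ∈ Sp Φ b c) :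
    s * t ∈ Sp Φ a c := by
  have h := Submodule.mul_mem_mul hs ht
  refine (?_ : Sp Φ a b * Sp Φ b c ≤ Sp Φ a c) h
  rw [Sp, Sp, Submodule.span_mul_span]
  refine Submodule.span_le.mpr ?_
  rintro _ ⟨_, ⟨α, β, hα, hβ, rfl⟩, _, ⟨γ, ε, hγ, hε, rfl⟩, rfl⟩
  have : X Φ α * Y Φ β * (X Φ γ * Y Φ ε) = X Φ α * (Y Φ β * X Φ γ) * Y Φ ε := by
    simp only [mul_assoc]
  change X Φ α * Y Φ β * (X Φ γ * Y Φ ε) ∈ Sp Φ a c
  rw [this, Y_mul_X_of_length Φ (hβ.trans hγ.symm)]
  split_ifs
  · rw [mul_one]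
    exact mono_mem Φ hα hε
  · rw [mul_zero, zero_mul]
    exact zero_mem _

/-- Corner coefficients are scalars. -/
lemma corner {a b : ℕ} {t : E} (ht : t ∈ Sp Φ a b) {α β : List Bool} (hα : α.length = a)
    (hβ : β.length = b) : ∃ c : K, Y Φ α * t * X Φ β = algebraMap K E c := by
  refine Submodule.span_induction ?_ ?_ ?_ ?_ ht
  · rintro _ ⟨γ, ε, hγ, hε, rfl⟩
    have : Y Φ α * (X Φ γ * Y Φ ε) * X Φ β = (Y Φ α * X Φ γ) * (Y Φ ε * X Φ β) := by
      simp only [mul_assoc]
    rw [this, Y_mul_X_of_length Φ (hα.trans hγ.symm), Y_mul_X_of_length Φ (hε.trans hβ.symm)]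
    split_ifs
    · exact ⟨1, by simp⟩
    · exact ⟨0, by simp⟩
    · exact ⟨0, by simp⟩
    · exact ⟨0, by simp⟩
  · exact ⟨0, by simp⟩
  · rintro s t _ _ ⟨c, hc⟩ ⟨d, hd⟩
    exact ⟨c + d, by rw [mul_add, add_mul, hc, hd, map_add]⟩
  · rintro r s _ ⟨c, hc⟩
    exact ⟨r * c, by
      rw [mul_smul_comm, smul_mul_assoc, hc, map_mul, Algebra.smul_def]⟩

lemma eq_zero_left (a : ℕ) (t : E) (h : ∀ α : List Bool, α.length = a → Y Φ α * t = 0) :
    t = 0 := by
  induction a generalizing t with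
  | zero => simpa [Y] using h [] rfl
  | succ a ih =>
    have h1 : ∀ i, Φ.y i * t = 0 := fun i => ih _ fun α hα => by
      have := h (i :: α) (by simp [hα])
      rwa [Y, mul_assoc] at this
    calc t = (Φ.x false * Φ.y false + Φ.x true * Φ.y true) * t := by rw [Φ.xy, one_mul]
      _ = Φ.x false * (Φ.y false * t) + Φ.x true * (Φ.y true * t) := by noncomm_ring
      _ = 0 := by rw [h1, h1]; simp

lemma eq_zero_right (b : ℕ) (t : E) (h : ∀ β : List Bool, β.length = b → t * X Φ β = 0) :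
    t = 0 := by
  induction b generalizing t with
  | zero => simpa [X] using h [] rfl
  | succ b ih =>
    have h1 : ∀ i, t * Φ.x i = 0 := fun i => ih _ fun β hβ => by
      have := h (i :: β) (by simp [hβ])
      rwa [X, ← mul_assoc] at this
    calc t = t * (Φ.x false * Φ.y false + Φ.x true * Φ.y true) := by rw [Φ.xy, mul_one]
      _ = (t * Φ.x false) * Φ.y false + (t * Φ.x true) * Φ.y true := by noncomm_ring
      _ = 0 := by rw [h1, h1]; simp

lemma exists_corner {a b : ℕ} {t : E} (ht : t ∈ Sp Φ a b) (h0 : t ≠ 0) :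
    ∃ α β : List Bool, α.length = a ∧ β.length = b ∧ ∃ c : K, c ≠ 0 ∧
      Y Φ α * t * X Φ β = algebraMap K E c := by
  by_contra hcon
  push Not at hcon
  apply h0
  apply eq_zero_left Φ a
  intro α hα
  apply eq_zero_right Φ b
  intro β hβ
  obtain ⟨c, hc⟩ := corner Φ ht hα hβ
  by_cases hc0 : c = 0
  · rw [hc, hc0, map_zero]
  · exact absurd hc (hcon α β hα hβ c hc0)

/-- Homogeneous elements of degree `m` are killed by separating words for degree `n ≠ m`. -/
lemma separate_elt (D : ℕ) {a a' b : ℕ} {t : E} (ht : t ∈ Sp Φ a' b) {α β : List Bool}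
    (hα : α.length = a) (hβ : β.length = b) (h : a ≠ a') (h1 : a ≤ a' + D) (h2 : a' ≤ a + D) :
    Y Φ (α ++ dl D) * t * X Φ (β ++ dl D) = 0 := by
  refine Submodule.span_induction ?_ ?_ ?_ ?_ ht
  · rintro _ ⟨μ, ν, hμ, hν, rfl⟩
    rw [X_append Φ β]
    have : Y Φ (α ++ dl D) * (X Φ μ * Y Φ ν) * (X Φ β * X Φ (dl D)) =
        Y Φ (α ++ dl D) * X Φ μ * (Y Φ ν * X Φ β) * X Φ (dl D) := by
      simp only [mul_assoc]
    rw [this, Y_mul_X_of_length Φ (hν.trans hβ.symm)]
    split_ifs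
    · rw [mul_one, mul_assoc, ← X_append]
      exact separate Φ D (by omega) (by omega) (by omega)
    · simp
  · simp
  · intro s t _ _ hs ht
    rw [mul_add, add_mul, hs, ht, add_zero]
  · intro r s _ hs
    rw [mul_smul_comm, smul_mul_assoc, hs, smul_zero]

/-- The homogeneous component of degree `n`. -/
def S (n : ℤ) : Submodule K E where
  carrier := {t | ∃ a b : ℕ, (a : ℤ) = b + n ∧ t ∈ Sp Φ a b}
  add_mem' := by
    rintro s t ⟨a, b, hab, hs⟩ ⟨a', b', hab', ht⟩
    refine ⟨a + a', b + a', by push_cast; omega, ?_⟩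
    refine add_mem (Sp_add Φ a b a' hs) ?_
    have := Sp_add Φ a' b' a ht
    rwa [add_comm a' a, show b' + a = b + a' by omega] at this
  zero_mem' := ⟨n.toNat, (-n).toNat, by omega, zero_mem _⟩
  smul_mem' := by
    rintro c t ⟨a, b, hab, ht⟩
    exact ⟨a, b, hab, Submodule.smul_mem _ c ht⟩

lemma mem_S {n : ℤ} {t : E} : t ∈ S Φ n ↔ ∃ a b : ℕ, (a : ℤ) = b + n ∧ t ∈ Sp Φ a b := Iff.rfl

lemma one_mem_S : (1 : E) ∈ S Φ 0 := ⟨0, 0, rfl, by
  have := mono_mem (a := 0) (b := 0) Φ (α := []) (β := []) rfl rfl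
  simpa [X, Y] using this⟩

lemma mul_mem_S {m n : ℤ} {s t : E} (hs : s ∈ S Φ m) (ht : t ∈ S Φ n) : s * t ∈ S Φ (m + n) := by
  obtain ⟨a, b, hab, hs⟩ := hs
  obtain ⟨a', b', hab', ht⟩ := ht
  refine ⟨a + a', b' + b, by push_cast; omega, ?_⟩
  have h1 := Sp_add Φ a b a' hs
  have h2 := Sp_add Φ a' b' b ht
  rw [add_comm a' b] at h2
  exact Sp_mul Φ h1 h2

lemma Sp_le_S {n : ℤ} {a b : ℕ} (h : (a : ℤ) = b + n) {t : E} (ht : t ∈ Sp Φ a b) : t ∈ S Φ n :=
  ⟨a, b, h, ht⟩

open Multiplicative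

/-- The Leavitt algebra, realised as an algebra of Laurent polynomials with coefficients
in `E`. -/
def R : Subring (MonoidAlgebra E (Multiplicative ℤ)) where
  carrier := {f | ∀ g, f.coeff g ∈ S Φ (toAdd g)}
  mul_mem' := by
    intro f f' hf hf' g
    classical
    rw [MonoidAlgebra.coeff_mul]
    refine Submodule.sum_mem _ fun g1 _ => Submodule.sum_mem _ fun g2 _ => ?_
    change (if g1 * g2 = g then f.coeff g1 * f'.coeff g2 else 0) ∈ S Φ (toAdd g)
    split_ifs with h
    · have := mul_mem_S Φ (hf g1) (hf' g2)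
      rwa [← toAdd_mul, h] at this
    · exact zero_mem _
  one_mem' := by
    intro g
    rw [MonoidAlgebra.one_def, MonoidAlgebra.coeff_single, Finsupp.single_apply]
    split_ifs with h
    · rw [← h]; exact one_mem_S Φ
    · exact zero_mem _
  add_mem' := by
    intro f f' hf hf' g
    rw [MonoidAlgebra.coeff_add]
    exact add_mem (hf g) (hf' g)
  zero_mem' := by
    intro g
    exact zero_mem _
  neg_mem' := by
    intro f hf g
    rw [MonoidAlgebra.coeff_neg]
    exact neg_mem (hf g)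

/-- coefficients -/
def co (f : R Φ) (g : Multiplicative ℤ) : E := f.1.coeff g

lemma co_mem (f : R Φ) (g : Multiplicative ℤ) : co Φ f g ∈ S Φ (toAdd g) := f.2 g

lemma co_ext {f f' : R Φ} (h : ∀ g, co Φ f g = co Φ f' g) : f = f' := by
  apply Subtype.ext
  apply MonoidAlgebra.ext
  exact Finsupp.ext h

lemma co_add (f f' : R Φ) (g : Multiplicative ℤ) : co Φ (f + f') g = co Φ f g + co Φ f' g := by
  change (f.1 + f'.1).coeff g = _
  rw [MonoidAlgebra.coeff_add]
  rfl

lemma co_zero (g : Multiplicative ℤ) : co Φ 0 g = 0 := rfl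

/-- homogeneous elements -/
noncomputable def hom (g : Multiplicative ℤ) (t : E) (ht : t ∈ S Φ (toAdd g)) : R Φ :=
  ⟨MonoidAlgebra.single g t, by
    intro h
    rw [MonoidAlgebra.coeff_single, Finsupp.single_apply]
    split_ifs with hg
    · rw [← hg]; exact ht
    · exact zero_mem _⟩

lemma co_hom (g : Multiplicative ℤ) (t : E) (ht : t ∈ S Φ (toAdd g)) (h : Multiplicative ℤ) :
    co Φ (hom Φ g t ht) h = if g = h then t else 0 := by
  change (MonoidAlgebra.single g t).coeff h = _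
  rw [MonoidAlgebra.coeff_single, Finsupp.single_apply]

lemma co_hom_mul (g : Multiplicative ℤ) (t : E) (ht : t ∈ S Φ (toAdd g)) (f : R Φ)
    (h : Multiplicative ℤ) : co Φ (hom Φ g t ht * f) h = t * co Φ f (g⁻¹ * h) := by
  change (MonoidAlgebra.single g t * f.1).coeff h = _
  rw [MonoidAlgebra.coeff_single_mul_apply]
  rfl

lemma co_mul_hom (g : Multiplicative ℤ) (t : E) (ht : t ∈ S Φ (toAdd g)) (f : R Φ)
    (h : Multiplicative ℤ) : co Φ (f * hom Φ g t ht) h = co Φ f (h * g⁻¹) * t := by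
  change (f.1 * MonoidAlgebra.single g t).coeff h = _
  rw [MonoidAlgebra.coeff_mul_single_apply]
  rfl

lemma co_one (g : Multiplicative ℤ) : co Φ 1 g = if g = 1 then 1 else 0 := by
  change (1 : MonoidAlgebra E (Multiplicative ℤ)).coeff g = _
  rw [MonoidAlgebra.one_def, MonoidAlgebra.coeff_single, Finsupp.single_apply]
  simp only [eq_comm]

/-- The grading. -/
def 𝒜 (g : Multiplicative ℤ) : AddSubgroup (R Φ) where
  carrier := {f | ∀ h, h ≠ g → co Φ f h = 0}
  add_mem' := by
    intro f f' hf hf' h hh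
    rw [co_add, hf h hh, hf' h hh, add_zero]
  zero_mem' := fun _ _ => rfl
  neg_mem' := by
    intro f hf h hh
    change (-f.1).coeff h = 0
    rw [MonoidAlgebra.coeff_neg]
    change -(co Φ f h) = 0
    rw [hf h hh, neg_zero]

lemma mem_𝒜 {g : Multiplicative ℤ} {f : R Φ} : f ∈ 𝒜 Φ g ↔ ∀ h, h ≠ g → co Φ f h = 0 := Iff.rfl

lemma hom_mem (g : Multiplicative ℤ) (t : E) (ht : t ∈ S Φ (toAdd g)) : hom Φ g t ht ∈ 𝒜 Φ g := by
  intro h hh
  rw [co_hom, if_neg (Ne.symm hh)]

lemma eq_hom {g : Multiplicative ℤ} {f : R Φ} (hf : f ∈ 𝒜 Φ g) :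
    f = hom Φ g (co Φ f g) (co_mem Φ f g) := by
  apply co_ext
  intro h
  rw [co_hom]
  split_ifs with hg
  · rw [hg]
  · exact hf h (Ne.symm hg)

/-- Every element is the sum of its homogeneous components. -/
lemma sum_hom (f : R Φ) : f = ∑ g ∈ f.1.coeff.support, hom Φ g (co Φ f g) (co_mem Φ f g) := by
  apply Subtype.ext
  rw [AddSubmonoidClass.coe_finsetSum]
  conv_lhs => rw [← MonoidAlgebra.sum_coeff_single f.1]
  rfl

/-- common level -/
lemma level (f : R Φ) : ∃ b0 : ℕ, ∀ b, b0 ≤ b → ∀ g, co Φ f g ≠ 0 →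
    0 ≤ (b : ℤ) + toAdd g ∧ co Φ f g ∈ Sp Φ ((b : ℤ) + toAdd g).toNat b := by
  choose a b hab hmem using fun g => co_mem Φ f g
  refine ⟨∑ g ∈ f.1.coeff.support, b g, fun c hc g hg => ?_⟩
  have h1 : g ∈ f.1.coeff.support := Finsupp.mem_support_iff.mpr hg
  have h2 : b g ≤ ∑ g ∈ f.1.coeff.support, b g :=
    Finset.single_le_sum (f := b) (fun _ _ => Nat.zero_le _) h1
  have h3 := hab g
  refine ⟨by omega, ?_⟩
  have h4 := Sp_add Φ (a g) (b g) (c - b g) (hmem g)
  have e1 : a g + (c - b g) = ((c : ℤ) + toAdd g).toNat := by omega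
  have e2 : b g + (c - b g) = c := by omega
  rwa [e1, e2] at h4

/-- bound on the degrees -/
lemma bound (f : R Φ) (n : Multiplicative ℤ) : ∃ D : ℕ, ∀ g, co Φ f g ≠ 0 →
    toAdd g ≤ toAdd n + D ∧ toAdd n ≤ toAdd g + D := by
  refine ⟨∑ g ∈ f.1.coeff.support, (toAdd g - toAdd n).natAbs, fun g hg => ?_⟩
  have h1 : g ∈ f.1.coeff.support := Finsupp.mem_support_iff.mpr hg
  have h2 : (toAdd g - toAdd n).natAbs ≤ ∑ g ∈ f.1.coeff.support, (toAdd g - toAdd n).natAbs :=
    Finset.single_le_sum (f := fun g : Multiplicative ℤ => (toAdd g - toAdd n).natAbs)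
      (fun _ _ => Nat.zero_le _) h1
  omega

/-- The separating products: `X_γ Y_{αδ}` and `X_{βδ} Y_ε` have degree `0`, and the product
`(X_γ Y_{αδ}) f (X_{βδ} Y_ε)` is concentrated in degree `n`. -/
lemma separate_ring (f : R Φ) (n : Multiplicative ℤ) {b D : ℕ} (hnb : 0 ≤ (b : ℤ) + toAdd n)
    (hb : ∀ g, co Φ f g ≠ 0 → 0 ≤ (b : ℤ) + toAdd g ∧ co Φ f g ∈ Sp Φ ((b : ℤ) + toAdd g).toNat b)
    (hD : ∀ g, co Φ f g ≠ 0 → toAdd g ≤ toAdd n + D ∧ toAdd n ≤ toAdd g + D)
    {α β γ ε : List Bool} (hα : α.length = ((b : ℤ) + toAdd n).toNat) (hβ : β.length = b)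
    (hγ : γ.length = α.length + (D + 1)) (hε : ε.length = b + (D + 1)) (c : K)
    (hc : Y Φ α * co Φ f n * X Φ β = algebraMap K E c) (r : K) :
    ∃ P Q : R Φ, P ∈ 𝒜 Φ 1 ∧ Q ∈ 𝒜 Φ 1 ∧
      ∃ h : (r * c) • (X Φ γ * Y Φ ε) ∈ S Φ (toAdd n),
      P * f * Q = hom Φ n ((r * c) • (X Φ γ * Y Φ ε)) h := by
  have hp : X Φ γ * Y Φ (α ++ dl D) ∈ S Φ (toAdd (1 : Multiplicative ℤ)) := by
    refine Sp_le_S Φ (a := γ.length) (b := γ.length) (by simp) (mono_mem Φ rfl ?_)
    rw [List.length_append, dl_length, hγ]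
  have hq : r • (X Φ (β ++ dl D) * Y Φ ε) ∈ S Φ (toAdd (1 : Multiplicative ℤ)) := by
    apply Submodule.smul_mem
    refine Sp_le_S Φ (a := ε.length) (b := ε.length) (by simp) (mono_mem Φ ?_ rfl)
    rw [List.length_append, dl_length, hε, hβ]
  have h : (r * c) • (X Φ γ * Y Φ ε) ∈ S Φ (toAdd n) := by
    apply Submodule.smul_mem
    refine Sp_le_S Φ (a := γ.length) (b := ε.length) ?_ (mono_mem Φ rfl rfl)
    rw [hγ, hε, hα]
    push_cast
    rw [Int.toNat_of_nonneg hnb]
    ring
  refine ⟨hom Φ 1 _ hp, hom Φ 1 _ hq, hom_mem Φ _ _ _, hom_mem Φ _ _ _, h, ?_⟩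
  apply co_ext
  intro g
  rw [co_mul_hom, co_hom_mul, inv_one, mul_one, one_mul, co_hom]
  have e1 : X Φ γ * Y Φ (α ++ dl D) * co Φ f g * r • (X Φ (β ++ dl D) * Y Φ ε) =
      r • (X Φ γ * (Y Φ (α ++ dl D) * co Φ f g * X Φ (β ++ dl D)) * Y Φ ε) := by
    rw [mul_smul_comm]
    simp only [mul_assoc]
  rw [e1]
  split_ifs with hg
  · subst hg
    have e2 : Y Φ (α ++ dl D) * co Φ f n * X Φ (β ++ dl D) = algebraMap K E c := by
      rw [Y_append, X_append]
      calc Y Φ (dl D) * Y Φ α * co Φ f n * (X Φ β * X Φ (dl D))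
          = Y Φ (dl D) * (Y Φ α * co Φ f n * X Φ β) * X Φ (dl D) := by simp only [mul_assoc]
        _ = algebraMap K E c * (Y Φ (dl D) * X Φ (dl D)) := by
            rw [hc, ← Algebra.commutes, mul_assoc]
        _ = _ := by rw [Y_mul_X_self, mul_one]
    rw [e2, ← Algebra.commutes, mul_assoc, ← Algebra.smul_def, smul_smul]
  · by_cases h0 : co Φ f g = 0
    · rw [h0]; simp
    · obtain ⟨hb1, hb2⟩ := hb g h0
      obtain ⟨hD1, hD2⟩ := hD g h0
      have hne : toAdd n ≠ toAdd g := fun h => hg (toAdd.injective h)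
      rw [separate_elt Φ D hb2 rfl hβ (by rw [hα]; omega) (by rw [hα]; omega)
        (by rw [hα]; omega)]
      simp

/-- A sub-bimodule containing an element with nonzero component of degree `n` contains all
homogeneous elements of degree `n`. -/
lemma key (N : AddSubgroup (R Φ)) (hl : ∀ a ∈ 𝒜 Φ 1, ∀ x ∈ N, a * x ∈ N)
    (hr : ∀ a ∈ 𝒜 Φ 1, ∀ x ∈ N, x * a ∈ N) {f : R Φ} (hf : f ∈ N) {n : Multiplicative ℤ}
    (hn : co Φ f n ≠ 0) (t : E) (ht : t ∈ S Φ (toAdd n)) : hom Φ n t ht ∈ N := by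
  obtain ⟨b0, hb0⟩ := level Φ f
  obtain ⟨D, hD⟩ := bound Φ f n
  obtain ⟨a1, b1, hab1, ht1⟩ := ht
  obtain ⟨b, hbdef⟩ : ∃ b, b = b0 + b1 := ⟨_, rfl⟩
  have hb := hb0 b (by omega)
  obtain ⟨hnb, hfn⟩ := hb n hn
  obtain ⟨α, β, hα, hβ, c, hc, hcor⟩ := exists_corner Φ hfn hn
  have ht2 : t ∈ Sp Φ (((b : ℤ) + toAdd n).toNat + (D + 1)) (b + (D + 1)) := by
    have := Sp_add Φ a1 b1 (b + (D + 1) - b1) ht1
    have e1 : a1 + (b + (D + 1) - b1) = ((b : ℤ) + toAdd n).toNat + (D + 1) := by omega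
    have e2 : b1 + (b + (D + 1) - b1) = b + (D + 1) := by omega
    rwa [e1, e2] at this
  have hind : ∀ r : K, ∃ f' ∈ N, f'.1 = MonoidAlgebra.single n (r • t) := by
    refine Submodule.span_induction ?_ ?_ ?_ ?_ ht2
    · rintro _ ⟨γ, ε, hγ, hε, rfl⟩ r
      obtain ⟨P, Q, hP, hQ, h, hPQ⟩ := separate_ring Φ f n hnb hb hD hα hβ
        (by rw [hγ, hα]) hε c hcor (r * c⁻¹)
      refine ⟨P * f * Q, hr Q hQ _ (hl P hP _ hf), ?_⟩
      rw [hPQ]
      change MonoidAlgebra.single n ((r * c⁻¹ * c) • (X Φ γ * Y Φ ε)) = _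
      rw [inv_mul_cancel_right₀ hc]
    · intro r
      exact ⟨0, zero_mem _, by rw [smul_zero, MonoidAlgebra.single_zero]; rfl⟩
    · intro s t _ _ hs ht r
      obtain ⟨f1, h1, e1⟩ := hs r
      obtain ⟨f2, h2, e2⟩ := ht r
      refine ⟨f1 + f2, add_mem h1 h2, ?_⟩
      rw [smul_add, MonoidAlgebra.single_add, ← e1, ← e2]
      rfl
    · intro c s _ hs r
      obtain ⟨f1, h1, e1⟩ := hs (r * c)
      exact ⟨f1, h1, by rw [e1, mul_smul]⟩
  obtain ⟨f', hf', e⟩ := hind 1
  have : f' = hom Φ n t ⟨a1, b1, hab1, ht1⟩ := by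
    apply Subtype.ext
    rw [e, one_smul]
    rfl
  rw [← this]
  exact hf'

end leavitt

/-! ### The notions of the problem -/

section notions

variable {G R : Type} [Group G] [Ring R]

/-- `R` is graded by `G` with components `𝒜 g`. -/
structure IsGraded [DecidableEq G] (𝒜 : G → AddSubgroup R) : Prop where
  internal : DirectSum.IsInternal 𝒜
  mul_mem : ∀ g h : G, ∀ x ∈ 𝒜 g, ∀ y ∈ 𝒜 h, x * y ∈ 𝒜 (g * h)

/-- Strong grading: `R_g R_h = R_{gh}`, where `R_g R_h` is the set of finite sums of products. -/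
def IsStrong (𝒜 : G → AddSubgroup R) : Prop :=
  ∀ g h : G, AddSubgroup.closure {z : R | ∃ x ∈ 𝒜 g, ∃ y ∈ 𝒜 h, z = x * y} = 𝒜 (g * h)

/-- `R_H`, the sum of the components `R_h`, `h ∈ H`. -/
def part (𝒜 : G → AddSubgroup R) (H : Set G) : AddSubgroup R := ⨆ h ∈ H, 𝒜 h

/-- The sub-bimodules of `R` over the identity component. -/
def IsSubBimodule (𝒜 : G → AddSubgroup R) (N : AddSubgroup R) : Prop :=
  (∀ a ∈ 𝒜 1, ∀ x ∈ N, a * x ∈ N) ∧ (∀ a ∈ 𝒜 1, ∀ x ∈ N, x * a ∈ N)

/-- `R_S` and `R_T` are isomorphic as bimodules over the identity component. -/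
def BimoduleIso (𝒜 : G → AddSubgroup R) (S T : Set G) : Prop :=
  ∃ φ : part 𝒜 S ≃+ part 𝒜 T,
    (∀ a ∈ 𝒜 1, ∀ x y : part 𝒜 S, (y : R) = a * x → (φ y : R) = a * φ x) ∧
    (∀ a ∈ 𝒜 1, ∀ x y : part 𝒜 S, (y : R) = x * a → (φ y : R) = φ x * a)

/-- `R` is `G`-controlled. -/
def IsControlled (𝒜 : G → AddSubgroup R) : Prop :=
  Set.BijOn (part 𝒜) Set.univ {N | IsSubBimodule 𝒜 N} ∧
    ∀ S T : Set G, BimoduleIso 𝒜 S T → S = T

/-- `R` is a `G`-crossed product. -/
def IsCrossedProduct (𝒜 : G → AddSubgroup R) : Prop := ∀ g : G, ∃ u : Rˣ, (u : R) ∈ 𝒜 g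

end notions

section main

variable {K E : Type} [Field K] [Ring E] [Algebra K E] (Φ : Fam K E)

open Multiplicative

lemma mem_part {H : Set (Multiplicative ℤ)} {f : R Φ} :
    f ∈ part (𝒜 Φ) H ↔ ∀ g, g ∉ H → co Φ f g = 0 := by
  constructor
  · intro hf
    let N : AddSubgroup (R Φ) :=
      { carrier := {f | ∀ g, g ∉ H → co Φ f g = 0}
        add_mem' := by
          intro f f' hf hf' h hh
          rw [co_add, hf h hh, hf' h hh, add_zero]
        zero_mem' := fun _ _ => rfl
        neg_mem' := by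
          intro f hf h hh
          change (-f.1).coeff h = 0
          rw [MonoidAlgebra.coeff_neg]
          change -(co Φ f h) = 0
          rw [hf h hh, neg_zero] }
    have : part (𝒜 Φ) H ≤ N := by
      refine iSup₂_le fun h hh f hf g hg => hf g ?_
      rintro rfl
      exact hg hh
    exact this hf
  · intro hf
    rw [sum_hom Φ f]
    refine sum_mem fun g hg => ?_
    have hgH : g ∈ H := by
      by_contra hcon
      exact (Finsupp.mem_support_iff.mp hg) (hf g hcon)
    exact (le_iSup₂_of_le (f := fun h (_ : h ∈ H) => 𝒜 Φ h) g hgH le_rfl) (hom_mem Φ g _ _)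

lemma mul_mem_𝒜 (g h : Multiplicative ℤ) (x : R Φ) (hx : x ∈ 𝒜 Φ g) (y : R Φ) (hy : y ∈ 𝒜 Φ h) :
    x * y ∈ 𝒜 Φ (g * h) := by
  rw [eq_hom Φ hx]
  intro k hk
  rw [co_hom_mul, hy _ (by
    intro hcon
    apply hk
    rw [← hcon]; group), mul_zero]

theorem graded : IsGraded (𝒜 Φ) := by
  refine ⟨⟨?_, ?_⟩, mul_mem_𝒜 Φ⟩
  · have hco : ∀ (z : DirectSum (Multiplicative ℤ) fun g => 𝒜 Φ g) (g : Multiplicative ℤ),
        co Φ (DirectSum.coeAddMonoidHom (𝒜 Φ) z) g = co Φ (z g : R Φ) g := by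
      intro z g
      induction z using DirectSum.induction_on with
      | zero => rfl
      | of i x =>
        rw [DirectSum.coeAddMonoidHom_of]
        by_cases h : i = g
        · subst h
          rw [DirectSum.of_eq_same]
        · rw [DirectSum.of_eq_of_ne _ _ _ (Ne.symm h), x.2 g (Ne.symm h)]
          rfl
      | add x y hx hy =>
        rw [map_add, co_add, hx, hy, DirectSum.add_apply]
        exact (co_add Φ _ _ _).symm
    rw [injective_iff_map_eq_zero]
    intro z hz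
    apply DFinsupp.ext
    intro g
    apply Subtype.ext
    apply co_ext
    intro h
    by_cases hg : h = g
    · subst hg
      have := hco z h
      rw [hz] at this
      exact this.symm
    · exact (z g).2 h hg
  · intro f
    refine ⟨∑ g ∈ f.1.coeff.support, DirectSum.of (fun g => 𝒜 Φ g) g
      ⟨hom Φ g (co Φ f g) (co_mem Φ f g), hom_mem Φ _ _ _⟩, ?_⟩
    rw [map_sum]
    conv_rhs => rw [sum_hom Φ f]
    refine Finset.sum_congr rfl fun g _ => ?_
    rw [DirectSum.coeAddMonoidHom_of]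

lemma exists_ne_zero [Nontrivial E] (g : Multiplicative ℤ) : ∃ t ∈ S Φ (toAdd g), t ≠ 0 := by
  refine ⟨X Φ (List.replicate (toAdd g).toNat true) * Y Φ (List.replicate (-toAdd g).toNat true),
    Sp_le_S Φ (a := (toAdd g).toNat) (b := (-toAdd g).toNat) (by omega)
      (mono_mem Φ (by simp) (by simp)), ?_⟩
  intro h
  have h1 : Y Φ (List.replicate (toAdd g).toNat true) *
      (X Φ (List.replicate (toAdd g).toNat true) * Y Φ (List.replicate (-toAdd g).toNat true)) *
      X Φ (List.replicate (-toAdd g).toNat true) = 1 := by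
    rw [← mul_assoc, Y_mul_X_self, one_mul, Y_mul_X_self]
  rw [h, mul_zero, zero_mul] at h1
  exact zero_ne_one h1

theorem strong : IsStrong (𝒜 Φ) := by
  intro g h
  apply le_antisymm
  · rw [AddSubgroup.closure_le]
    rintro _ ⟨x, hx, y, hy, rfl⟩
    exact mul_mem_𝒜 Φ g h x hx y hy
  · intro z hz
    obtain ⟨a, b, hab, ht⟩ := co_mem Φ z (g * h)
    -- raise the level
    have ht2 := Sp_add Φ a b (toAdd g).toNat ht
    have hind : ∀ r : K, ∃ z' ∈ AddSubgroup.closure {z : R Φ | ∃ x ∈ 𝒜 Φ g, ∃ y ∈ 𝒜 Φ h, z = x * y},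
        z'.1 = MonoidAlgebra.single (g * h) (r • co Φ z (g * h)) := by
      refine Submodule.span_induction ?_ ?_ ?_ ?_ ht2
      · rintro _ ⟨α, β, hα, hβ, rfl⟩ r
        obtain ⟨γ, hγ⟩ : ∃ γ : List Bool, γ.length = ((α.length : ℤ) - toAdd g).toNat :=
          ⟨List.replicate _ true, List.length_replicate⟩
        have hge : toAdd g ≤ (α.length : ℤ) := by
          rw [hα]; push_cast; omega
        have hx : r • (X Φ α * Y Φ γ) ∈ S Φ (toAdd g) :=
          Submodule.smul_mem _ _ (Sp_le_S Φ (a := α.length) (b := γ.length) (by rw [hγ]; omega)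
            (mono_mem Φ rfl rfl))
        have hy : X Φ γ * Y Φ β ∈ S Φ (toAdd h) := by
          refine Sp_le_S Φ (a := γ.length) (b := β.length) ?_ (mono_mem Φ rfl rfl)
          rw [hγ, hβ]
          rw [toAdd_mul] at hab
          push_cast at hab ⊢
          rw [hα] at hge ⊢
          push_cast at hge ⊢
          omega
        refine ⟨hom Φ g _ hx * hom Φ h _ hy, AddSubgroup.subset_closure
          ⟨_, hom_mem Φ _ _ _, _, hom_mem Φ _ _ _, rfl⟩, ?_⟩
        change MonoidAlgebra.single g (r • (X Φ α * Y Φ γ)) *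
          MonoidAlgebra.single h (X Φ γ * Y Φ β) = _
        rw [MonoidAlgebra.single_mul_single, smul_mul_assoc]
        congr 2
        calc X Φ α * Y Φ γ * (X Φ γ * Y Φ β) = X Φ α * (Y Φ γ * X Φ γ) * Y Φ β := by
              simp only [mul_assoc]
          _ = _ := by rw [Y_mul_X_self, mul_one]
      · intro r
        exact ⟨0, zero_mem _, by rw [smul_zero, MonoidAlgebra.single_zero]; rfl⟩
      · intro s t _ _ hs ht r
        obtain ⟨f1, h1, e1⟩ := hs r
        obtain ⟨f2, h2, e2⟩ := ht r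
        refine ⟨f1 + f2, add_mem h1 h2, ?_⟩
        rw [smul_add, MonoidAlgebra.single_add, ← e1, ← e2]
        rfl
      · intro c s _ hs r
        obtain ⟨f1, h1, e1⟩ := hs (r * c)
        exact ⟨f1, h1, by rw [e1, mul_smul]⟩
    obtain ⟨z', hz', e⟩ := hind 1
    have : z' = z := by
      rw [eq_hom Φ hz]
      apply Subtype.ext
      rw [e, one_smul]
      rfl
    rw [← this]
    exact hz'

theorem controlled [Nontrivial E] : IsControlled (𝒜 Φ) := by
  have hsub : ∀ H, IsSubBimodule (𝒜 Φ) (part (𝒜 Φ) H) := by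
    intro H
    constructor
    · intro a ha x hx
      rw [mem_part] at hx ⊢
      intro g hg
      rw [eq_hom Φ ha, co_hom_mul, inv_one, one_mul, hx g hg, mul_zero]
    · intro a ha x hx
      rw [mem_part] at hx ⊢
      intro g hg
      rw [eq_hom Φ ha, co_mul_hom, inv_one, mul_one, hx g hg, zero_mul]
  refine ⟨⟨fun H _ => hsub H, ?_, ?_⟩, ?_⟩
  · -- injectivity
    have : ∀ H H' : Set (Multiplicative ℤ), part (𝒜 Φ) H = part (𝒜 Φ) H' → H ⊆ H' := by
      intro H H' h g hg
      by_contra hcon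
      obtain ⟨t, ht, ht0⟩ := exists_ne_zero Φ g
      have h1 : hom Φ g t ht ∈ part (𝒜 Φ) H := by
        rw [mem_part]
        intro k hk
        rw [co_hom, if_neg]
        rintro rfl
        exact hk hg
      rw [h, mem_part] at h1
      have h2 := h1 g hcon
      rw [co_hom, if_pos rfl] at h2
      exact ht0 h2
    intro H _ H' _ h
    exact Set.Subset.antisymm (this H H' h) (this H' H h.symm)
  · -- surjectivity
    rintro N ⟨hl, hr⟩
    refine ⟨{g | ∃ f ∈ N, co Φ f g ≠ 0}, Set.mem_univ _, ?_⟩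
    apply le_antisymm
    · intro f hf
      rw [sum_hom Φ f]
      refine sum_mem fun g hg => ?_
      have hgH : g ∈ {g | ∃ f ∈ N, co Φ f g ≠ 0} := by
        by_contra hcon
        exact (Finsupp.mem_support_iff.mp hg) ((mem_part Φ).mp hf g hcon)
      obtain ⟨f', hf', hne⟩ := hgH
      exact key Φ N hl hr hf' hne _ _
    · intro f hf
      rw [mem_part]
      intro g hg
      by_contra hcon
      exact hg ⟨f, hf, hcon⟩
  · -- isomorphisms
    have hmain : ∀ S T : Set (Multiplicative ℤ), BimoduleIso (𝒜 Φ) S T → S ⊆ T := by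
      rintro S' T' ⟨φ, hφl, hφr⟩ n hnS
      by_contra hnT
      obtain ⟨t, ht, ht0⟩ := exists_ne_zero Φ n
      have hf0 : hom Φ n t ht ∈ part (𝒜 Φ) S' := by
        rw [mem_part]
        intro k hk
        rw [co_hom, if_neg]
        rintro rfl
        exact hk hnS
      obtain ⟨f, hf⟩ : ∃ f : part (𝒜 Φ) S', f = ⟨hom Φ n t ht, hf0⟩ := ⟨_, rfl⟩
      obtain ⟨b0, hb0⟩ := level Φ f.1
      obtain ⟨b1, hb1⟩ := level Φ (φ f).1
      obtain ⟨D0, hD0⟩ := bound Φ f.1 n
      obtain ⟨D1, hD1⟩ := bound Φ (φ f).1 n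
      have hfn : co Φ f.1 n ≠ 0 := by
        rw [hf, co_hom, if_pos rfl]
        exact ht0
      obtain ⟨b, hb⟩ : ∃ b, b = b0 + b1 := ⟨_, rfl⟩
      obtain ⟨D, hD⟩ : ∃ D, D = D0 + D1 := ⟨_, rfl⟩
      have hbf := hb0 b (by omega)
      have hbg := hb1 b (by omega)
      obtain ⟨hnb, hfs⟩ := hbf n hfn
      obtain ⟨α, β, hα, hβ, c, hc, hcor⟩ := exists_corner Φ hfs hfn
      -- the separating elements
      have hp : X Φ (α ++ dl D) * Y Φ (α ++ dl D) ∈ S Φ (toAdd (1 : Multiplicative ℤ)) :=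
        Sp_le_S Φ (a := (α ++ dl D).length) (b := (α ++ dl D).length) (by simp)
          (mono_mem Φ rfl rfl)
      have hq : X Φ (β ++ dl D) * Y Φ (β ++ dl D) ∈ S Φ (toAdd (1 : Multiplicative ℤ)) :=
        Sp_le_S Φ (a := (β ++ dl D).length) (b := (β ++ dl D).length) (by simp)
          (mono_mem Φ rfl rfl)
      obtain ⟨P, hP⟩ : ∃ P, P = hom Φ 1 _ hp := ⟨_, rfl⟩
      obtain ⟨Q, hQ⟩ : ∃ Q, Q = hom Φ 1 _ hq := ⟨_, rfl⟩
      have hPm : P ∈ 𝒜 Φ 1 := by rw [hP]; exact hom_mem Φ _ _ _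
      have hQm : Q ∈ 𝒜 Φ 1 := by rw [hQ]; exact hom_mem Φ _ _ _
      -- `P f Q ≠ 0`
      have hPf : P * f.1 ∈ part (𝒜 Φ) S' := (hsub S').1 P hPm _ f.2
      have hPfQ : P * f.1 * Q ∈ part (𝒜 Φ) S' := (hsub S').2 Q hQm _ hPf
      have hne : P * f.1 * Q ≠ 0 := by
        intro h0
        have h1 := congrArg (fun z => co Φ z n) h0
        change co Φ (P * f.1 * Q) n = 0 at h1
        rw [hP, hQ, co_mul_hom, co_hom_mul, inv_one, mul_one, one_mul] at h1
        have h2 : Y Φ (α ++ dl D) * (X Φ (α ++ dl D) * Y Φ (α ++ dl D) * co Φ f.1 n *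
            (X Φ (β ++ dl D) * Y Φ (β ++ dl D))) * X Φ (β ++ dl D) = algebraMap K E c := by
          calc _ = (Y Φ (α ++ dl D) * X Φ (α ++ dl D)) * (Y Φ (α ++ dl D) * co Φ f.1 n *
                X Φ (β ++ dl D)) * (Y Φ (β ++ dl D) * X Φ (β ++ dl D)) := by
                simp only [mul_assoc]
            _ = Y Φ (α ++ dl D) * co Φ f.1 n * X Φ (β ++ dl D) := by
                rw [Y_mul_X_self, Y_mul_X_self, one_mul, mul_one]
            _ = Y Φ (dl D) * (Y Φ α * co Φ f.1 n * X Φ β) * X Φ (dl D) := by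
                rw [Y_append, X_append]; simp only [mul_assoc]
            _ = algebraMap K E c * (Y Φ (dl D) * X Φ (dl D)) := by
                rw [hcor, ← Algebra.commutes, mul_assoc]
            _ = _ := by rw [Y_mul_X_self, mul_one]
        rw [h1, mul_zero, zero_mul] at h2
        exact hc ((map_eq_zero_iff _ (algebraMap K E).injective).mp h2.symm)
      -- `P φ(f) Q = 0`
      have hzero : P * (φ f).1 * Q = 0 := by
        apply co_ext
        intro g
        rw [hP, hQ, co_mul_hom, co_hom_mul, inv_one, mul_one, one_mul, co_zero]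
        have e1 : X Φ (α ++ dl D) * Y Φ (α ++ dl D) * co Φ (φ f).1 g *
            (X Φ (β ++ dl D) * Y Φ (β ++ dl D)) = X Φ (α ++ dl D) * (Y Φ (α ++ dl D) *
            co Φ (φ f).1 g * X Φ (β ++ dl D)) * Y Φ (β ++ dl D) := by
          simp only [mul_assoc]
        rw [e1]
        by_cases h0 : co Φ (φ f).1 g = 0
        · rw [h0]; simp
        · obtain ⟨g1, g2⟩ := hbg g h0
          obtain ⟨g3, g4⟩ := hD1 g h0
          have hgn : g ≠ n := by
            rintro rfl
            exact h0 ((mem_part Φ).mp (φ f).2 _ hnT)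
          have hne : toAdd n ≠ toAdd g := fun h => hgn (toAdd.injective h).symm
          rw [separate_elt Φ D g2 rfl hβ (by rw [hα]; omega) (by rw [hα]; omega)
            (by rw [hα]; omega)]
          simp
      have h1 := hφl P hPm f ⟨P * f.1, hPf⟩ rfl
      have h2 := hφr Q hQm ⟨P * f.1, hPf⟩ ⟨P * f.1 * Q, hPfQ⟩ rfl
      rw [h1, hzero] at h2
      have h3 : φ ⟨P * f.1 * Q, hPfQ⟩ = 0 := Subtype.ext h2
      rw [map_eq_zero_iff φ φ.injective] at h3
      exact hne (congrArg Subtype.val h3)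
    intro S' T' hST
    refine Set.Subset.antisymm (hmain S' T' hST) (hmain T' S' ?_)
    obtain ⟨φ, hφl, hφr⟩ := hST
    refine ⟨φ.symm, ?_, ?_⟩
    · intro a ha x y hxy
      have hm := (hsub S').1 a ha _ (φ.symm x).2
      have h1 := hφl a ha (φ.symm x) ⟨_, hm⟩ rfl
      rw [φ.apply_symm_apply] at h1
      have h2 : φ ⟨_, hm⟩ = y := Subtype.ext (h1.trans hxy.symm)
      rw [← h2, φ.symm_apply_apply]
    · intro a ha x y hxy
      have hm := (hsub S').2 a ha _ (φ.symm x).2
      have h1 := hφr a ha (φ.symm x) ⟨_, hm⟩ rfl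
      rw [φ.apply_symm_apply] at h1
      have h2 : φ ⟨_, hm⟩ = y := Subtype.ext (h1.trans hxy.symm)
      rw [← h2, φ.symm_apply_apply]

/-- There is no unit of degree `1`. -/
theorem no_unit [Nontrivial E] : ¬ IsCrossedProduct (𝒜 Φ) := by
  intro h
  obtain ⟨u, hu⟩ := h (ofAdd 1)
  obtain ⟨T, hT⟩ : ∃ T, T = co Φ u (ofAdd 1) := ⟨_, rfl⟩
  obtain ⟨U, hU⟩ : ∃ U, U = co Φ (u⁻¹ : (R Φ)ˣ) (ofAdd 1)⁻¹ := ⟨_, rfl⟩
  have hTU : T * U = 1 := by
    have h1 := congrArg (fun z => co Φ z 1) u.mul_inv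
    change co Φ ((u : R Φ) * (u⁻¹ : (R Φ)ˣ)) 1 = co Φ 1 1 at h1
    rw [co_one, if_pos rfl, eq_hom Φ hu, co_hom_mul, mul_one, ← hT, ← hU] at h1
    exact h1
  obtain ⟨a, b, hab, hTm⟩ := co_mem Φ u (ofAdd 1)
  obtain ⟨a', b', hab', hUm⟩ := co_mem Φ (u⁻¹ : (R Φ)ˣ) (ofAdd 1)⁻¹
  rw [← hT] at hTm
  rw [← hU] at hUm
  rw [toAdd_ofAdd] at hab
  rw [toAdd_inv, toAdd_ofAdd] at hab'
  -- common level
  obtain ⟨n, hn⟩ : ∃ n, n = b + a' := ⟨_, rfl⟩
  have hT' : T ∈ Sp Φ (n + 1) n := by
    have := Sp_add Φ a b a' hTm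
    rwa [show a + a' = n + 1 by omega, ← hn] at this
  have hU' : U ∈ Sp Φ n (n + 1) := by
    have := Sp_add Φ a' b' b hUm
    rwa [show a' + b = n by omega, show b' + b = n + 1 by omega] at this
  -- finite-dimensional spaces
  have hfd : ∀ m, FiniteDimensional K (Sp Φ m 0) := by
    intro m
    have hfin : Set.Finite {t : E | ∃ α β : List Bool, α.length = m ∧ β.length = 0 ∧
        t = X Φ α * Y Φ β} := by
      refine ((List.finite_length_eq Bool m).image fun α => X Φ α * Y Φ []).subset ?_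
      rintro _ ⟨α, β, hα, hβ, rfl⟩
      rw [List.length_eq_zero_iff] at hβ
      subst hβ
      exact ⟨α, hα, rfl⟩
    exact FiniteDimensional.span_of_finite K hfin
  have := hfd n
  have := hfd (n + 1)
  -- the map `z ↦ U z`
  let A : Sp Φ (n + 1) 0 →ₗ[K] Sp Φ n 0 :=
    { toFun := fun z => ⟨U * z.1, Sp_mul Φ hU' z.2⟩
      map_add' := fun z w => Subtype.ext (mul_add _ _ _)
      map_smul' := fun c z => Subtype.ext (mul_smul_comm _ _ _) }
  have hA : Function.Injective A := by
    intro z w hzw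
    have h1 : U * z.1 = U * w.1 := congrArg Subtype.val hzw
    apply Subtype.ext
    calc z.1 = (T * U) * z.1 := by rw [hTU, one_mul]
      _ = T * (U * z.1) := mul_assoc _ _ _
      _ = T * (U * w.1) := by rw [h1]
      _ = (T * U) * w.1 := (mul_assoc _ _ _).symm
      _ = w.1 := by rw [hTU, one_mul]
  have hx : ∀ i, ∀ z ∈ Sp Φ n 0, Φ.x i * z ∈ Sp Φ (n + 1) 0 := by
    intro i z hz
    have h1 : Φ.x i = X Φ [i] * Y Φ [] := by simp [X, Y]
    have h2 : Φ.x i ∈ Sp Φ (1 + n) (0 + n) := Sp_add Φ 1 0 n (by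
      rw [h1]; exact mono_mem Φ rfl rfl)
    rw [add_comm 1 n, zero_add] at h2
    exact Sp_mul Φ h2 hz
  let B : (Sp Φ n 0 × Sp Φ n 0) →ₗ[K] Sp Φ (n + 1) 0 :=
    { toFun := fun z => ⟨Φ.x false * z.1.1 + Φ.x true * z.2.1,
        add_mem (hx _ _ z.1.2) (hx _ _ z.2.2)⟩
      map_add' := fun z w => Subtype.ext (by
        change Φ.x false * (z.1.1 + w.1.1) + Φ.x true * (z.2.1 + w.2.1) =
          Φ.x false * z.1.1 + Φ.x true * z.2.1 + (Φ.x false * w.1.1 + Φ.x true * w.2.1)
        noncomm_ring)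
      map_smul' := fun c z => Subtype.ext (by
        change Φ.x false * (c • z.1.1) + Φ.x true * (c • z.2.1) =
          c • (Φ.x false * z.1.1 + Φ.x true * z.2.1)
        rw [mul_smul_comm, mul_smul_comm, smul_add]) }
  have hB : Function.Injective B := by
    rw [injective_iff_map_eq_zero]
    rintro ⟨z, w⟩ h0
    have h1 : Φ.x false * z.1 + Φ.x true * w.1 = 0 := congrArg Subtype.val h0
    have h2 : Φ.y false * (Φ.x false * z.1 + Φ.x true * w.1) = z.1 := by
      rw [mul_add, ← mul_assoc, ← mul_assoc, Φ.yx, Φ.yx]; simp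
    have h3 : Φ.y true * (Φ.x false * z.1 + Φ.x true * w.1) = w.1 := by
      rw [mul_add, ← mul_assoc, ← mul_assoc, Φ.yx, Φ.yx]; simp
    rw [h1, mul_zero] at h2 h3
    exact Prod.ext (Subtype.ext h2.symm) (Subtype.ext h3.symm)
  have h1 := LinearMap.finrank_le_finrank_of_injective hA
  have h2 := LinearMap.finrank_le_finrank_of_injective hB
  rw [Module.finrank_prod] at h2
  have h3 : 0 < Module.finrank K (Sp Φ n 0) := by
    rw [Module.finrank_pos_iff_exists_ne_zero]
    refine ⟨⟨X Φ (List.replicate n true) * Y Φ [], mono_mem Φ (by simp) rfl⟩, ?_⟩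
    intro h0
    have h4 : X Φ (List.replicate n true) * Y Φ [] = 0 := congrArg Subtype.val h0
    have h5 : Y Φ (List.replicate n true) * (X Φ (List.replicate n true) * Y Φ []) = 1 := by
      rw [← mul_assoc, Y_mul_X_self]
      simp [Y]
    rw [h4, mul_zero] at h5
    exact zero_ne_one h5
  omega

end main

/-! ### An explicit family -/

/-- Prepending a letter to an infinite word. -/
def cons (i : Bool) (z : ℕ → Bool) : ℕ → Bool
  | 0 => i
  | n + 1 => z n

/-- The operators on functions on infinite words. -/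
def fam (K : Type) [Field K] : Fam K (Module.End K ((ℕ → Bool) → K)) where
  x i :=
    { toFun := fun v z => if z 0 = i then v (fun n => z (n + 1)) else 0
      map_add' := fun v w => by
        funext z
        change (if z 0 = i then (v fun n => z (n + 1)) + (w fun n => z (n + 1)) else 0) =
          (if z 0 = i then (v fun n => z (n + 1)) else 0) +
          (if z 0 = i then (w fun n => z (n + 1)) else 0)
        split_ifs <;> simp
      map_smul' := fun c v => by
        funext z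
        change (if z 0 = i then c * (v fun n => z (n + 1)) else 0) =
          c * (if z 0 = i then (v fun n => z (n + 1)) else 0)
        split_ifs <;> simp }
  y i :=
    { toFun := fun v z => v (cons i z)
      map_add' := fun _ _ => rfl
      map_smul' := fun _ _ => rfl }
  yx i j := by
    refine LinearMap.ext fun v => ?_
    funext z
    change (if i = j then v z else 0) = _
    split_ifs with h
    · rfl
    · rfl
  xy := by
    refine LinearMap.ext fun v => ?_
    funext z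
    change (if z 0 = false then v (cons false fun n => z (n + 1)) else 0) +
      (if z 0 = true then v (cons true fun n => z (n + 1)) else 0) = v z
    have h : cons (z 0) (fun n => z (n + 1)) = z := by
      funext n
      cases n <;> rfl
    cases hz : z 0 with
    | false =>
      rw [hz] at h
      rw [if_pos rfl, if_neg (by decide), add_zero, h]
    | true =>
      rw [hz] at h
      rw [if_neg (by decide), if_pos rfl, zero_add, h]

/-- There are a group `G` and a strongly `G`-graded, `G`-controlled ring which is not a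
`G`-crossed product. -/
theorem result : ∃ (G : Type) (_ : Group G) (_ : DecidableEq G) (R : Type) (_ : Ring R)
    (𝒜 : G → AddSubgroup R), IsGraded 𝒜 ∧ IsStrong 𝒜 ∧ IsControlled 𝒜 ∧ ¬ IsCrossedProduct 𝒜 := by
  have : Nontrivial (Module.End ℚ ((ℕ → Bool) → ℚ)) := inferInstance
  exact ⟨Multiplicative ℤ, inferInstance, inferInstance, R (fam ℚ), inferInstance, 𝒜 (fam ℚ),
    graded _, strong _, controlled _, no_unit _⟩

end Pool.Agent.Results.MP_26bbbf_al.Leavitt
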